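import Pool.Agent.Helper92_SBG.Tdt

/-!
CA2: the commutators of elements of `H` span a group of rank two.
-/

namespace Pool.Agent.SBG.H35

open Sy Pool.Agent.SBG

variable {k : ℕ}

lemma exp_ca2 {k : ℕ} (hk : 100 ≤ k) :
    10 * (2 * (16 * k + 5)) + (46 * k + 6) * 10 ≤ (68 * k + 23) * (16 * k + 5) := by
  nlinarith

lemma fin_ca2 (k q ε R B C n : ℕ) (hk : 100 ≤ k) (hn : 1 ≤ n) (hq : q ≤ B * n ^ 10)
    (he : ε ≤ C * n ^ (46 * k + 6 + 0 * (19 * k + 3))) (hR : R ≤ q ^ (16 * k)) :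
    (1 * 40320 * (q * ε) ^ 5 * R) ^ 2 ≤
      40320 ^ 2 * B ^ (2 * (16 * k + 5)) * C ^ 10 * n ^ ((68 * k + 23) * (16 * k + 5)) :=
  calc (1 * 40320 * (q * ε) ^ 5 * R) ^ 2
      ≤ (1 * 40320 * (q * ε) ^ 5 * q ^ (16 * k)) ^ 2 := by gcongr
    _ = 40320 ^ 2 * q ^ (2 * (16 * k + 5)) * ε ^ 10 := by ring
    _ ≤ 40320 ^ 2 * (B * n ^ 10) ^ (2 * (16 * k + 5)) *
          (C * n ^ (46 * k + 6 + 0 * (19 * k + 3))) ^ 10 := by gcongr
    _ = 40320 ^ 2 * B ^ (2 * (16 * k + 5)) * C ^ 10 *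
          n ^ (10 * (2 * (16 * k + 5)) + (46 * k + 6) * 10) := by
        rw [zero_mul, add_zero, mul_pow, mul_pow, ← pow_mul, ← pow_mul, pow_add]
        ring
    _ ≤ 40320 ^ 2 * B ^ (2 * (16 * k + 5)) * C ^ 10 * n ^ ((68 * k + 23) * (16 * k + 5)) :=
        Nat.mul_le_mul_left _ (Nat.pow_le_pow_right hn (exp_ca2 hk))

/-- Index of a lattice in `ℤ ^ 2` containing two small independent vectors. -/
lemma index_two (L : AddSubgroup (Fin 2 → ℤ)) (u u' : Fin 2 → ℤ) (hu : u ∈ L) (hu' : u' ∈ L)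
    (P : ℤ) (hP : 0 ≤ P) (b : ∀ j, |u j| ≤ P) (b' : ∀ j, |u' j| ≤ P)
    (hne : u 0 * u' 1 - u 1 * u' 0 ≠ 0) : ((L.relIndex (sat L) : ℕ) : ℤ) ≤ 2 * P ^ 2 := by
  have hdet : (Matrix.of ![u, u']).det = u 0 * u' 1 - u 1 * u' 0 := by
    rw [Matrix.det_fin_two]
    rfl
  have hdet0 : (Matrix.of ![u, u']).det ≠ 0 := by rw [hdet]; exact hne
  have hidx := H92.index_rows (Matrix.of ![u, u']) hdet0
  have hle : AddSubgroup.closure (Set.range (Matrix.of ![u, u']).row) ≤ L := by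
    rw [AddSubgroup.closure_le]
    rintro _ ⟨i, rfl⟩
    fin_cases i
    · exact hu
    · exact hu'
  have hq1 : L.relIndex (sat L) ∣ (Matrix.of ![u, u']).det.natAbs := by
    rw [← hidx]
    exact (AddSubgroup.relIndex_dvd_index_of_le (le_sat _)).trans
      (AddSubgroup.index_dvd_of_le hle)
  have h2 := Nat.le_of_dvd (Int.natAbs_pos.mpr hdet0) hq1
  have h3 : ((L.relIndex (sat L) : ℕ) : ℤ) ≤ |u 0 * u' 1 - u 1 * u' 0| := by
    rw [← hdet, ← Int.natCast_natAbs]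
    exact_mod_cast h2
  have c1 : |u 0 * u' 1| ≤ P * P := by
    rw [abs_mul]
    exact mul_le_mul (b 0) (b' 1) (abs_nonneg _) hP
  have c2 : |u 1 * u' 0| ≤ P * P := by
    rw [abs_mul]
    exact mul_le_mul (b 1) (b' 0) (abs_nonneg _) hP
  refine h3.trans ((abs_sub _ _).trans ((add_le_add c1 c2).trans (le_of_eq ?_)))
  ring

/-- CA2. -/
theorem ca2 (chi : ChiStmt) (sep : SepStmt) (idx : IdxStmt) (cru : CruStmt) : Ca2Stmt := by
  classical
  intro k A hk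
  obtain ⟨C, hC⟩ := cru k A 0
  set B : ℕ := 2 * (2 * (16 * k * (A * A))) ^ 2 with hB
  refine ⟨40320 ^ 2 * B ^ (2 * (16 * k + 5)) * C ^ 10, fun n hn X hX hdet z hz hz' => ?_⟩
  obtain ⟨x, hx, y, hy, x', hx', y', hy', hne⟩ := hdet
  -- the bound for `q`
  have hb : ∀ u ∈ X, ∀ v ∈ X, ∀ j, |(2 • bz u v) j| ≤ 2 * (16 * k * (A * A)) * (n : ℤ) ^ 5 := by
    intro u hu v hv j
    have h1 := bz_bound hn u v A A (Int.natCast_nonneg _) (Int.natCast_nonneg _)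
      (fun c => hX u hu (Sum.inl c)) (fun c => hX v hv (Sum.inl c)) j
    rw [Pi.smul_apply, nsmul_eq_mul, abs_mul]
    push_cast
    rw [abs_two]
    linarith
  have hmem : ∀ u ∈ X, ∀ v ∈ X, 2 • bz u v ∈ Lam (HX X) := fun u hu v hv =>
    two_bz_mem (mem_HX hu) (mem_HX hv)
  have hP : (0 : ℤ) ≤ 2 * (16 * k * (A * A)) * (n : ℤ) ^ 5 := by positivity
  have hlat := index_two (Lam (HX X)) (2 • bz x y) (2 • bz x' y') (hmem x hx y hy)
    (hmem x' hx' y' hy') _ hP (hb x hx y hy) (hb x' hx' y' hy') (by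
      have e : (2 • bz x y) 0 * (2 • bz x' y') 1 - (2 • bz x y) 1 * (2 • bz x' y') 0 =
          4 * (bz x y 0 * bz x' y' 1 - bz x y 1 * bz x' y' 0) := by
        simp only [Pi.smul_apply, nsmul_eq_mul, Nat.cast_ofNat]
        ring
      rw [e]
      exact mul_ne_zero (by norm_num) hne)
  obtain ⟨hq0, χ, hχ, hχz⟩ := chi (Fin 2) _ _ hz hz'
  have hqle : (Lam (HX X)).relIndex (sat (Lam (HX X))) ≤ B * n ^ 10 := by
    have h1 : (((Lam (HX X)).relIndex (sat (Lam (HX X))) : ℕ) : ℤ) ≤ ((B * n ^ 10 : ℕ) : ℤ) := by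
      refine hlat.trans (le_of_eq ?_)
      rw [hB]
      push_cast
      ring
    exact_mod_cast h1
  -- the bound for `ε`
  have hcru := hC n hn (X.image pv) (by
    intro v hv c
    obtain ⟨u, hu, rfl⟩ := Finset.mem_image.mp hv
    exact hX u hu (Sum.inl c))
  rw [Finset.coe_image, ← LM_HX] at hcru
  obtain ⟨hε0, hεle⟩ := hcru
  have hεs : ∀ v ∈ sat (LM (HX X)), (LM (HX X)).relIndex (sat (LM (HX X))) • v ∈ LM (HX X) := by
    intro v hv
    have h1 := AddSubgroup.nsmul_index_mem ((LM (HX X)).addSubgroupOf (sat (LM (HX X)))) ⟨v, hv⟩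
    rw [AddSubgroup.mem_addSubgroupOf] at h1
    exact h1
  have h1 := sep k (HX X) 1 (Tr_HX X) _ _ (Nat.pos_of_ne_zero hq0) (Nat.pos_of_ne_zero hε0) χ hχ
    hεs z hχz
  obtain ⟨-, h2, -⟩ := idx k _ (Nat.pos_of_ne_zero hq0) χ
  refine ⟨_, h1, ?_⟩
  exact fin_ca2 k _ _ _ B C n hk hn hqle hεle h2

end Pool.Agent.SBG.H35
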