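import Pool.Agent.Helper92_SBG.Rd

/-!
CSA: case A, all elements of `H` have `m = 0`.
-/

namespace Pool.Agent.SBG.H35

open Sy Pool.Agent.SBG

variable {k : ℕ}

lemma Sm_mono {C C' n : ℕ} {H : Subgroup (Gp k)} {g : Gp k} (h : C ≤ C') (hs : Sm C n H g) :
    Sm C' n H g := by
  obtain ⟨d, h1, h2⟩ := hs
  exact ⟨d, h1, h2.trans (Nat.mul_le_mul_right _ h)⟩

/-- The first coordinate modulo `N`. -/
def mmod (k N : ℕ) : Gp k →* Multiplicative (ZMod N) where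
  toFun g := Multiplicative.ofAdd (g.m : ZMod N)
  map_one' := by simp
  map_mul' g h := by
    rw [Gp.mul_m, Int.cast_add, ofAdd_add]

/-- First case: `m ≠ 0`. -/
lemma case_m (A n : ℕ) (X : Finset (W k)) (g : Gp k) (hg : |g.m| ≤ A * n)
    (h0 : g.m ≠ 0) : relDepth (HX X) g ≤ ((A * n + 1 : ℕ) : ℕ∞) := by
  have hN : NeZero (g.m.natAbs + 1) := ⟨by omega⟩
  have h1 : relDepth (HX X) g ≤ (Nat.card (Multiplicative (ZMod (g.m.natAbs + 1))) : ℕ∞) := by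
    refine relDepth_le_card _ _ _ (mmod k (g.m.natAbs + 1)) ?_
    rintro ⟨h, hh, he⟩
    have h2 : ((h.m : ℤ) : ZMod (g.m.natAbs + 1)) = ((g.m : ℤ) : ZMod (g.m.natAbs + 1)) := he
    rw [HX_m hh, Int.cast_zero] at h2
    have h3 := (ZMod.intCast_zmod_eq_zero_iff_dvd g.m (g.m.natAbs + 1)).mp h2.symm
    have h4 : (g.m.natAbs + 1) ∣ g.m.natAbs := Int.natCast_dvd.mp h3
    have h5 := Nat.le_of_dvd (Int.natAbs_pos.mpr h0) h4
    omega
  have h2 : Nat.card (Multiplicative (ZMod (g.m.natAbs + 1))) = g.m.natAbs + 1 := by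
    rw [Nat.card_congr Multiplicative.toAdd, Nat.card_zmod]
  rw [h2] at h1
  refine h1.trans ?_
  have h3 : g.m.natAbs ≤ A * n := by
    have : (g.m.natAbs : ℤ) ≤ ((A * n : ℕ) : ℤ) := by
      rw [Int.natCast_natAbs]; push_cast; exact hg
    exact_mod_cast this
  exact_mod_cast Nat.add_le_add_right h3 1

lemma exp_big {k : ℕ} (hk : 100 ≤ k) (m : ℕ) (hm : m ≤ 460 * k + 60) :
    m ≤ (68 * k + 23) * (16 * k + 5) := by
  nlinarith

/-- Second case: `m = 0` and the image in `V k` is not in `LM`. -/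
lemma case_v (chi : ChiStmt) (vsp : VspStmt) (cru : CruStmt) (k A : ℕ) (hk : 100 ≤ k) :
    ∃ C : ℕ, ∀ n : ℕ, 1 ≤ n → ∀ X : Finset (W k),
    (∀ x ∈ X, ∀ c, |x c| ≤ A * (n : ℤ) ^ (wt c)) → ∀ y : W k,
    (∀ c, |y c| ≤ A * (n : ℤ) ^ (wt c)) → pv y ∉ LM (HX X) → Sm C n (HX X) ⟨0, y⟩ := by
  classical
  obtain ⟨C, hC⟩ := cru k (2 * A) 0
  refine ⟨40320 ^ 2 * C ^ 10, fun n hn X hX y hy hv => ?_⟩
  -- the finite set generating `L'`
  obtain ⟨Z, hZb, hZ1, hZ2, hZ3⟩ : ∃ Z : Finset (V k),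
      (∀ x ∈ Z, ∀ c, |x c| ≤ ((2 * A : ℕ) : ℤ) * (n : ℤ) ^ (wtI c + 0)) ∧
      LM (HX X) ≤ AddSubgroup.closure (Z : Set (V k)) ∧
      pv y ∈ sat (AddSubgroup.closure (Z : Set (V k))) ∧
      pv y ∉ AddSubgroup.closure (Z : Set (V k)) := by
    have hpow : ∀ c : Ix k, (0 : ℤ) ≤ (n : ℤ) ^ (wtI c) := fun c => by positivity
    have hA : (0 : ℤ) ≤ A := Int.natCast_nonneg A
    have hb1 : ∀ x ∈ X, ∀ c, |pv x c| ≤ ((2 * A : ℕ) : ℤ) * (n : ℤ) ^ (wtI c + 0) := by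
      intro x hx c
      have h1 : |pv x c| ≤ A * (n : ℤ) ^ (wtI c) := hX x hx (Sum.inl c)
      have h2 := mul_nonneg hA (hpow c)
      push_cast
      rw [add_zero]
      linarith
    by_cases hs : pv y ∈ sat (LM (HX X))
    · refine ⟨X.image pv, ?_, ?_, ?_, ?_⟩
      · intro x hx c
        obtain ⟨x', hx', rfl⟩ := Finset.mem_image.mp hx
        exact hb1 x' hx' c
      · rw [LM_HX, Finset.coe_image]
      · rwa [LM_HX, ← Finset.coe_image] at hs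
      · rwa [LM_HX, ← Finset.coe_image] at hv
    · have hcl : AddSubgroup.closure ((insert (2 • pv y) (X.image pv) : Finset (V k)) : Set (V k))
          = AddSubgroup.zmultiples (2 • pv y) ⊔ LM (HX X) := by
        rw [LM_HX, Finset.coe_insert, Finset.coe_image, Set.insert_eq, AddSubgroup.closure_union,
          AddSubgroup.zmultiples_eq_closure]
      refine ⟨insert (2 • pv y) (X.image pv), ?_, ?_, ?_, ?_⟩
      · intro x hx c
        rcases Finset.mem_insert.mp hx with rfl | hx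
        · have h1 : |pv y c| ≤ A * (n : ℤ) ^ (wtI c) := hy (Sum.inl c)
          rw [Pi.smul_apply, nsmul_eq_mul, abs_mul, add_zero]
          push_cast
          rw [abs_two]
          linarith
        · obtain ⟨x', hx', rfl⟩ := Finset.mem_image.mp hx
          exact hb1 x' hx' c
      · rw [hcl]; exact le_sup_right
      · rw [hcl]
        exact ⟨2, two_pos, AddSubgroup.mem_sup_left (AddSubgroup.mem_zmultiples _)⟩
      · rw [hcl]
        intro h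
        obtain ⟨a, ha, b, hb, hab⟩ := AddSubgroup.mem_sup.mp h
        obtain ⟨j, rfl⟩ := AddSubgroup.mem_zmultiples_iff.mp ha
        apply hs
        have h1 : (1 - 2 * j) • pv y = b := by
          have h2 : b = pv y - j • (2 • pv y) := eq_sub_of_add_eq' hab
          rw [h2, sub_smul, one_smul]
          congr 1
          rw [mul_comm, mul_smul, two_smul, two_smul]
        refine ⟨(1 - 2 * j).natAbs, Int.natAbs_pos.mpr (by omega), ?_⟩
        rcases Int.natAbs_eq (1 - 2 * j) with h3 | h3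
        · rw [← natCast_zsmul, ← h3, h1]; exact hb
        · have h4 : (((1 - 2 * j).natAbs : ℕ) : ℤ) = -(1 - 2 * j) := by omega
          rw [← natCast_zsmul, h4, neg_smul, h1]
          exact neg_mem hb
  obtain ⟨hq0, hqle⟩ := hC n hn Z hZb
  obtain ⟨-, χ, hχ, hχv⟩ := chi (Ix k) _ _ hZ2 hZ3
  have h1 := vsp k (HX X) 1 (Tr_HX X) _ (Nat.pos_of_ne_zero hq0) χ
    (fun v hv' => hχ v (hZ1 hv')) y hχv
  refine ⟨_, h1, ?_⟩
  calc (1 * 40320 * ((AddSubgroup.closure (Z : Set (V k))).relIndex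
        (sat (AddSubgroup.closure (Z : Set (V k))))) ^ 5) ^ 2
      ≤ (1 * 40320 * (C * n ^ (46 * k + 6 + 0 * (19 * k + 3))) ^ 5) ^ 2 := by gcongr
    _ = 40320 ^ 2 * C ^ 10 * n ^ ((46 * k + 6) * 10) := by
        rw [zero_mul, add_zero]
        ring
    _ ≤ 40320 ^ 2 * C ^ 10 * n ^ ((68 * k + 23) * (16 * k + 5)) := by
        refine Nat.mul_le_mul_left _ (Nat.pow_le_pow_right hn (exp_big hk _ ?_))
        omega

/-- The three central cases together. -/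
lemma case_z (h0 : Ca0Stmt) (h1 : Ca1Stmt) (h2 : Ca2Stmt) (k A : ℕ) (hk : 100 ≤ k) :
    ∃ C : ℕ, ∀ n : ℕ, 1 ≤ n → ∀ X : Finset (W k),
    (∀ x ∈ X, ∀ c, |x c| ≤ A * (n : ℤ) ^ (wt c)) →
    ∀ z : Fin 2 → ℤ, z ∈ sat (Lam (HX X)) → z ∉ Lam (HX X) → Sm C n (HX X) ⟨0, zin z⟩ := by
  obtain ⟨C0, hC0⟩ := h0 k A hk
  obtain ⟨C1, hC1⟩ := h1 k A hk
  obtain ⟨C2, hC2⟩ := h2 k A hk
  refine ⟨C0 + C1 + C2, fun n hn X hX z hz hz' => ?_⟩
  by_cases ha : ∀ x ∈ X, ∀ y ∈ X, bz x y = 0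
  · exact Sm_mono (by omega) (hC0 n hn X hX ha z hz hz')
  by_cases hb : ∃ x ∈ X, ∃ y ∈ X, ∃ x' ∈ X, ∃ y' ∈ X,
    bz x y 0 * bz x' y' 1 - bz x y 1 * bz x' y' 0 ≠ 0
  · exact Sm_mono (by omega) (hC2 n hn X hX hb z hz hz')
  push Not at ha hb
  obtain ⟨x₀, hx₀, y₀, hy₀, hne⟩ := ha
  have hgne : (Int.gcd (bz x₀ y₀ 0) (bz x₀ y₀ 1)) ≠ 0 := by
    intro hg
    rw [Int.gcd_eq_zero_iff] at hg
    apply hne
    funext j
    fin_cases j
    · exact hg.1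
    · exact hg.2
  have hgpos : 0 < Int.gcd (bz x₀ y₀ 0) (bz x₀ y₀ 1) := Nat.pos_of_ne_zero hgne
  obtain ⟨a, b, hab, ha', hb'⟩ := Int.exists_gcd_one hgpos
  have hcop : IsCoprime b (-a) := by
    have : IsCoprime a b := Int.isCoprime_iff_gcd_eq_one.mpr hab
    exact this.symm.neg_right
  refine Sm_mono (by omega) (hC1 n hn X hX b (-a) hcop ?_ ⟨x₀, hx₀, y₀, hy₀, hne⟩ z hz hz')
  intro x hx y hy
  have h3 : (a * ((Int.gcd (bz x₀ y₀ 0) (bz x₀ y₀ 1) : ℕ) : ℤ)) * bz x y 1 -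
      (b * ((Int.gcd (bz x₀ y₀ 0) (bz x₀ y₀ 1) : ℕ) : ℤ)) * bz x y 0 = 0 := by
    rw [← ha', ← hb']
    exact hb x₀ hx₀ y₀ hy₀ x hx y hy
  have h4 : ((Int.gcd (bz x₀ y₀ 0) (bz x₀ y₀ 1) : ℕ) : ℤ) ≠ 0 := by exact_mod_cast hgne
  have h5 : ((Int.gcd (bz x₀ y₀ 0) (bz x₀ y₀ 1) : ℕ) : ℤ) * (b * bz x y 0 + -a * bz x y 1) = 0 := by
    linarith
  exact (mul_eq_zero.mp h5).resolve_left h4

/-- CSA. -/
theorem csa (chi : ChiStmt) (vsp : VspStmt) (cru : CruStmt) (h0 : Ca0Stmt) (h1 : Ca1Stmt)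
    (h2 : Ca2Stmt) : CsaStmt := by
  classical
  intro k A hk
  obtain ⟨Cv, hCv⟩ := case_v chi vsp cru k A hk
  obtain ⟨Cz, hCz⟩ := case_z h0 h1 h2 k (2 * A) hk
  refine ⟨(A + 1) ^ 2 + Cv + Cz, fun n hn X hX g hgm hgx hg => ?_⟩
  by_cases hm : g.m = 0
  swap
  · refine ⟨_, case_m A n X g hgm hm, ?_⟩
    calc (A * n + 1) ^ 2 ≤ ((A + 1) * n) ^ 2 := by
          apply Nat.pow_le_pow_left
          rw [add_mul, one_mul]
          omega
      _ = (A + 1) ^ 2 * n ^ 2 := mul_pow _ _ _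
      _ ≤ ((A + 1) ^ 2 + Cv + Cz) * n ^ ((68 * k + 23) * (16 * k + 5)) := by
          apply Nat.mul_le_mul
          · omega
          · exact Nat.pow_le_pow_right hn (exp_big hk _ (by omega))
  by_cases hv : pv g.x ∈ LM (HX X)
  swap
  · rw [Gp.eta0 hm]
    exact Sm_mono (by omega) (hCv n hn X hX g.x hgx hv)
  obtain ⟨h, hh, hh0, hhv⟩ := hv
  have hdec : g = h * ⟨0, zin (pz g.x - pz h.x)⟩ := by
    apply Gp.ext
    · simp [hm, hh0]
    · rw [Gp.mul_x, hh0, tp_zero, Bf_zin_right, add_zero]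
      apply W_ext
      · rw [pv_add, pv_zin, add_zero, hhv]
      · rw [pz_add, pz_zin]; abel
  set z : Fin 2 → ℤ := pz g.x - pz h.x with hzdef
  have hzL : z ∉ Lam (HX X) := by
    intro hz
    apply hg
    rw [hdec]
    exact (HX X).mul_mem hh hz
  have hrd : relDepth (HX X) g = relDepth (HX X) ⟨0, zin z⟩ := by
    rw [hdec, relDepth_mul_left _ hh]
  have hA2 : ∀ (c : Jx k) (t : ℤ), |t| ≤ A * (n : ℤ) ^ (wt c) →
      |t| ≤ ((2 * A : ℕ) : ℤ) * (n : ℤ) ^ (wt c) := by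
    intro c t ht
    have h2 : (0 : ℤ) ≤ A * (n : ℤ) ^ (wt c) := by positivity
    push_cast
    linarith
  by_cases hs : z ∈ sat (Lam (HX X))
  · obtain ⟨d, hd1, hd2⟩ := hCz n hn X (fun x hx c => hA2 c _ (hX x hx c)) z hs hzL
    exact ⟨d, hrd ▸ hd1, hd2.trans (Nat.mul_le_mul_right _ (by omega))⟩
  -- add the square of `g`
  have hX' : ∀ x ∈ insert (2 • g.x) X, ∀ c, |x c| ≤ ((2 * A : ℕ) : ℤ) * (n : ℤ) ^ (wt c) := by
    intro x hx c
    rcases Finset.mem_insert.mp hx with rfl | hx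
    · have h1 := hgx c
      rw [Pi.smul_apply, nsmul_eq_mul, abs_mul]
      push_cast
      rw [abs_two]
      linarith
    · exact hA2 c _ (hX x hx c)
  have hle : HX X ≤ HX (insert (2 • g.x) X) := by
    apply Subgroup.closure_mono
    apply Set.image_mono
    rw [Finset.coe_insert]
    exact Set.subset_insert _ _
  have hcen : ∀ (u : Gp k) (w : Fin 2 → ℤ), u * ⟨0, zin w⟩ = ⟨0, zin w⟩ * u := by
    intro u w
    apply Gp.ext
    · simp
    · simp only [Gp.mul_x, tp_zin, Bf_zin_right, Bf_zin_left, tp_zero, add_zero]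
      abel
  have hsq : (⟨0, 2 • g.x⟩ : Gp k) = h * h * ⟨0, zin (2 • z)⟩ := by
    have e1 : (⟨0, 2 • g.x⟩ : Gp k) = g * g := by
      rw [← pow_two, Gp.eta0 hm, Gp.pow0]
    have e2 : (⟨0, zin (2 • z)⟩ : Gp k) = ⟨0, zin z⟩ * ⟨0, zin z⟩ := by
      rw [Gp.mul0, Bf_zin_left, add_zero, two_smul, zin_add]
    rw [e1, e2]
    nth_rewrite 1 [hdec]
    nth_rewrite 1 [hdec]
    calc h * ⟨0, zin z⟩ * (h * ⟨0, zin z⟩) = h * (⟨0, zin z⟩ * h) * ⟨0, zin z⟩ := by group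
      _ = h * (h * ⟨0, zin z⟩) * ⟨0, zin z⟩ := by rw [← hcen h z]
      _ = h * h * (⟨0, zin z⟩ * ⟨0, zin z⟩) := by group
  have h2z : 2 • z ∈ Lam (HX (insert (2 • g.x) X)) := by
    have m1 : (⟨0, 2 • g.x⟩ : Gp k) ∈ HX (insert (2 • g.x) X) := mem_HX (Finset.mem_insert_self _ _)
    have m2 : h ∈ HX (insert (2 • g.x) X) := hle hh
    have e : (⟨0, zin (2 • z)⟩ : Gp k) = (h * h)⁻¹ * ⟨0, 2 • g.x⟩ := by rw [hsq]; group
    rw [mem_Lam_iff, e]
    exact Subgroup.mul_mem _ (Subgroup.inv_mem _ (Subgroup.mul_mem _ m2 m2)) m1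
  have hform : ∀ u ∈ HX (insert (2 • g.x) X), ∃ v ∈ HX X, ∃ j : ℤ, u = v * ⟨0, zin (j • (2 • z))⟩ := by
    intro u hu
    refine Subgroup.closure_induction
      (p := fun u _ => ∃ v ∈ HX X, ∃ j : ℤ, u = v * ⟨0, zin (j • (2 • z))⟩) ?_ ?_ ?_ ?_ hu
    · rintro _ ⟨x, hx, rfl⟩
      rw [Finset.coe_insert] at hx
      rcases hx with rfl | hx
      · exact ⟨h * h, (HX X).mul_mem hh hh, 1, by rw [one_smul]; exact hsq⟩
      · refine ⟨⟨0, x⟩, mem_HX hx, 0, ?_⟩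
        rw [zero_smul, zin_zero]
        exact (mul_one _).symm
    · refine ⟨1, (HX X).one_mem, 0, ?_⟩
      rw [zero_smul, zin_zero]
      exact (mul_one _).symm
    · rintro _ _ - - ⟨v, hv, j, rfl⟩ ⟨v', hv', j', rfl⟩
      refine ⟨v * v', (HX X).mul_mem hv hv', j + j', ?_⟩
      have e2 : (⟨0, zin ((j + j') • (2 • z))⟩ : Gp k) =
          ⟨0, zin (j • (2 • z))⟩ * ⟨0, zin (j' • (2 • z))⟩ := by
        rw [Gp.mul0, Bf_zin_left, add_zero, add_smul, zin_add]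
      rw [e2]
      calc v * ⟨0, zin (j • (2 • z))⟩ * (v' * ⟨0, zin (j' • (2 • z))⟩)
          = v * (⟨0, zin (j • (2 • z))⟩ * v') * ⟨0, zin (j' • (2 • z))⟩ := by group
        _ = v * (v' * ⟨0, zin (j • (2 • z))⟩) * ⟨0, zin (j' • (2 • z))⟩ := by
          rw [← hcen v' (j • (2 • z))]
        _ = v * v' * (⟨0, zin (j • (2 • z))⟩ * ⟨0, zin (j' • (2 • z))⟩) := by group
    · rintro _ - ⟨v, hv, j, rfl⟩
      refine ⟨v⁻¹, (HX X).inv_mem hv, -j, ?_⟩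
      have e2 : (⟨0, zin ((-j) • (2 • z))⟩ : Gp k) = (⟨0, zin (j • (2 • z))⟩ : Gp k)⁻¹ := by
        rw [Gp.inv0, neg_smul, zin_neg]
      rw [e2, mul_inv_rev]
      have h3 := hcen v (j • (2 • z))
      have h4 : (⟨0, zin (j • (2 • z))⟩ : Gp k)⁻¹ * v⁻¹ = (v * ⟨0, zin (j • (2 • z))⟩)⁻¹ := by
        rw [mul_inv_rev]
      rw [h4, h3, mul_inv_rev]
  have hz' : z ∉ Lam (HX (insert (2 • g.x) X)) := by
    intro hz
    obtain ⟨v, hv, j, hj⟩ := hform _ hz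
    apply hs
    have e3 : v = ⟨0, zin (z - j • (2 • z))⟩ := by
      have e4 : v = ⟨0, zin z⟩ * (⟨0, zin (j • (2 • z))⟩ : Gp k)⁻¹ := by rw [hj]; group
      rw [e4, Gp.inv0, Gp.mul0, Bf_zin_left, add_zero, ← zin_neg, ← zin_add, sub_eq_add_neg]
    have e5 : (1 - 2 * j) • z ∈ Lam (HX X) := by
      change (⟨0, zin ((1 - 2 * j) • z)⟩ : Gp k) ∈ HX X
      have e6 : (1 - 2 * j) • z = z - j • (2 • z) := by
        rw [sub_smul, one_smul]
        congr 1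
        rw [mul_comm, mul_smul, two_smul, two_smul]
      rw [e6, ← e3]
      exact hv
    refine ⟨(1 - 2 * j).natAbs, Int.natAbs_pos.mpr (by omega), ?_⟩
    rcases Int.natAbs_eq (1 - 2 * j) with h3 | h3
    · rw [← natCast_zsmul, ← h3]; exact e5
    · have h4 : (((1 - 2 * j).natAbs : ℕ) : ℤ) = -(1 - 2 * j) := by omega
      rw [← natCast_zsmul, h4, neg_smul]
      exact neg_mem e5
  obtain ⟨d, hd1, hd2⟩ := hCz n hn (insert (2 • g.x) X) hX' z ⟨2, two_pos, h2z⟩ hz'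
  refine ⟨d, ?_, hd2.trans (Nat.mul_le_mul_right _ (by omega))⟩
  rw [hrd]
  exact (relDepth_mono hle _).trans hd1

end Pool.Agent.SBG.H35
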